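import Pool.Agent.MP_3ce0a0_al.H79.XS
import Pool.Agent.MP_3ce0a0_al.H79.XJ

/-
The defect of a transposition on a sector is small.
-/

namespace Pool.Agent.MP_3ce0a0_al.H82

open Equiv Module Finset Pool.Agent.MP_3ce0a0_al.H62.Inst Pool.Agent.MP_3ce0a0_al.H79.X

lemma choose_two_le {n j : ℕ} (h : 2 ≤ j) (h' : j + 2 ≤ n) : n.choose 2 ≤ n.choose j := by
  have key : ∀ i, 2 ≤ i → i ≤ n / 2 → n.choose 2 ≤ n.choose i := by
    intro i hi
    induction i, hi using Nat.le_induction with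
    | base => exact fun _ => le_rfl
    | succ m _ ih =>
      exact fun k => (ih (by omega)).trans (Nat.choose_le_succ_of_lt_half_left (by omega))
  by_cases c : j ≤ n / 2
  · exact key j h c
  · rw [← Nat.choose_symm (show j ≤ n by omega)]
    exact key _ (by omega) (by omega)

variable {H : Type} [AddCommGroup H] [Module ℂ H] [FiniteDimensional ℂ H]

omit [FiniteDimensional ℂ H] in
lemma neg_self {v : H} (h : -v = v) : v = 0 := by
  have : (2 : ℂ) • v = 0 := by rw [two_smul]; nth_rewrite 1 [← h]; exact neg_add_cancel v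
  simpa using this

/-- permuted commuting involutions on a small space. -/
lemma maj {κ : Type} [Fintype κ] [DecidableEq κ] (t : κ → End ℂ H) (E : Submodule ℂ H)
    (h1 : ∀ a, t a * t a = 1) (h2 : ∀ a b, Commute (t a) (t b)) (h3 : ∀ a, Keeps (t a) E)
    (h4 : ∀ σ : Perm κ, ∃ u u' : End ℂ H, u' * u = 1 ∧ Keeps u E ∧ ∀ a, u * t a = t (σ a) * u)
    (hc : 3 ≤ Fintype.card κ) (hE : finrank ℂ E < (Fintype.card κ).choose 2) {i j : κ} :
    Fintype.card κ * finrank ℂ
      (E ⊓ End.eigenspace (t i) (-1) ⊓ End.eigenspace (t j) 1 : Submodule ℂ H) ≤ finrank ℂ E := by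
  have s1 : ∀ (Q : Submodule ℂ H), (∀ a, Keeps (t a) Q) →
      ∑ I ∈ (univ : Finset κ).powerset, finrank ℂ (Q ⊓ JE t univ I : Submodule ℂ H) =
        finrank ℂ Q := fun Q hQ =>
    JE_sum (fun a _ v _ => by rw [← End.mul_apply, h1, End.one_apply])
      (fun a _ b _ v _ => by rw [← End.mul_apply, (h2 a b).eq, End.mul_apply]) fun a _ => hQ a
  obtain ⟨m, hm⟩ : ∃ m : Finset κ → ℕ, ∀ J, m J = finrank ℂ (E ⊓ JE t univ J : Submodule ℂ H) :=
    ⟨_, fun _ => rfl⟩
  have sA : ∀ J J' : Finset κ, J.card = J'.card → m J ≤ m J' := by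
    intro J J' e
    obtain ⟨σ, rfl⟩ := Perm.exists_map_finset_eq J J' e
    obtain ⟨u, u', e1, e2, e3⟩ := h4 σ
    rw [hm, hm, ← finrank_map_unit e1]
    refine Submodule.finrank_mono ?_
    rintro _ ⟨v, ⟨hv, hv'⟩, rfl⟩
    refine ⟨e2 v hv, mem_JE.2 fun a _ => ?_⟩
    obtain ⟨c, rfl⟩ := σ.surjective a
    rw [← End.mul_apply, ← e3, End.mul_apply, mem_JE.1 hv' c (mem_univ _)]
    by_cases hc : c ∈ J <;> simp [hc]
  have sB : ∀ J : Finset κ, (Fintype.card κ).choose J.card * m J ≤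
      ∑ I ∈ powersetCard J.card univ, m I := by
    intro J
    rw [← card_univ, ← card_powersetCard, ← smul_eq_mul]
    exact card_nsmul_le_sum _ _ _ fun I hI => sA _ _ (mem_powersetCard.1 hI).2.symm
  have sE : ∑ I ∈ (univ : Finset κ).powerset, m I = finrank ℂ E := by
    rw [← s1 E h3]
    exact sum_congr rfl fun I _ => hm I
  have sC : ∀ J : Finset κ, m J ≠ 0 → J.card ≤ 1 ∨ Fintype.card κ ≤ J.card + 1 := by
    intro J hJ
    by_contra c
    have c1 := choose_two_le (n := Fintype.card κ) (j := J.card) (by omega) (by omega)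
    have c2 : ∑ I ∈ powersetCard J.card univ, m I ≤ finrank ℂ E := by
      rw [← sE]
      exact sum_le_sum_of_subset fun I _ => mem_powerset.2 (subset_univ _)
    have c3 := Nat.le_mul_of_pos_right ((Fintype.card κ).choose J.card) (Nat.pos_of_ne_zero hJ)
    have := sB J
    omega
  have sD : finrank ℂ (E ⊓ End.eigenspace (t i) (-1) ⊓ End.eigenspace (t j) 1 : Submodule ℂ H) ≤
      m {i} + m {j}ᶜ := by
    rw [← s1 _ fun a => ((h3 a).inf (keeps_eig (h2 a i) _)).inf (keeps_eig (h2 a j) _)]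
    refine (sum_le_sum (g := fun J => (if J = {i} then m J else 0) + if J = {j}ᶜ then m J else 0)
      fun J _ => ?_).trans (by rw [sum_add_distrib, sum_ite_eq', sum_ite_eq']; simp)
    have le : finrank ℂ (E ⊓ End.eigenspace (t i) (-1) ⊓ End.eigenspace (t j) 1 ⊓ JE t univ J :
        Submodule ℂ H) ≤ m J := by
      rw [hm]
      exact Submodule.finrank_mono (inf_le_inf_right _ (inf_le_left.trans inf_le_left))
    by_cases z : (E ⊓ End.eigenspace (t i) (-1) ⊓ End.eigenspace (t j) 1 ⊓ JE t univ J :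
        Submodule ℂ H) = ⊥
    · rw [z, finrank_bot]
      exact Nat.zero_le _
    have z' := Submodule.one_le_finrank_iff.2 z
    obtain ⟨v, ⟨⟨⟨-, v1⟩, v2⟩, v3⟩, v0⟩ := (Submodule.ne_bot_iff _).1 z
    have w1 : t i v = -v := by simpa using End.mem_eigenspace_iff.1 v1
    have w2 : t j v = v := by simpa using End.mem_eigenspace_iff.1 v2
    have hi : i ∈ J := by
      by_contra c
      have := mem_JE.1 v3 i (mem_univ _)
      rw [if_neg c, w1] at this
      exact v0 (neg_self this)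
    have hj : j ∉ J := by
      intro c
      have := mem_JE.1 v3 j (mem_univ _)
      rw [if_pos c, w2] at this
      exact v0 (neg_self this.symm)
    rcases sC J (by omega) with c | c
    · have : J = {i} := (eq_of_subset_of_card_le (singleton_subset_iff.2 hi) (by simpa using c)).symm
      rw [if_pos this]
      omega
    · have : J = {j}ᶜ := eq_of_subset_of_card_le
        (fun x hx => by simpa using fun e : x = j => hj (e ▸ hx))
        (by rw [card_compl, card_singleton]; omega)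
      rw [if_pos this]
      omega
  have b1 := sB {i}
  have b2 := sB {j}ᶜ
  rw [card_singleton, Nat.choose_one_right] at b1
  rw [card_compl, card_singleton, Nat.choose_symm (by omega), Nat.choose_one_right] at b2
  have b3 : ∑ I ∈ powersetCard 1 univ, m I + ∑ I ∈ powersetCard (Fintype.card κ - 1) univ, m I ≤
      finrank ℂ E := by
    rw [← sum_union, ← sE]
    · exact sum_le_sum_of_subset fun I _ => mem_powerset.2 (subset_univ _)
    · refine disjoint_left.2 fun I c c' => ?_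
      have := (mem_powersetCard.1 c).2
      have := (mem_powersetCard.1 c').2
      omega
  have := Nat.mul_le_mul_left (Fintype.card κ) sD
  rw [mul_add] at this
  omega

variable {ι : Type} [Fintype ι] [DecidableEq ι]

omit [FiniteDimensional ℂ H] in
lemma keeps_pm (r : Rep ι H) (T : Finset ι) {σ : Perm ι} (h : ∀ x, σ x ∈ T ↔ x ∈ T) :
    Keeps (r (pm σ)) (Sec r univ T) := by
  intro v hv
  refine mem_JE.2 fun a _ => ?_
  obtain ⟨c, rfl⟩ := σ.surjective a
  rw [← End.mul_apply, ← map_mul, ← pm_ep, map_mul, End.mul_apply, mem_JE.1 hv c (mem_univ _)]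
  by_cases hc : c ∈ T <;> simp [hc, h]

omit [Fintype ι] in
lemma swap_mem {T : Finset ι} {c d : ι} (h : c ∈ T ↔ d ∈ T) (x : ι) : swap c d x ∈ T ↔ x ∈ T := by
  by_cases e : x = c
  · rw [e, swap_apply_left, h]
  · by_cases e' : x = d
    · rw [e', swap_apply_right, h]
    · rw [swap_apply_of_ne_of_ne e e']

/-- transpositions of disjoint pairs of letters with the same sign. -/
lemma maj_pairs (r : Rep ι H) (T : Finset ι) {κ : Type} [Fintype κ] [DecidableEq κ]
    (p : κ × Bool ↪ ι) (hp : ∀ x y, p x ∈ T ↔ p y ∈ T) (hc : 3 ≤ Fintype.card κ)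
    (hE : mu r T < (Fintype.card κ).choose 2) (i j : κ) :
    Fintype.card κ * finrank ℂ
      (Sec r univ T ⊓ End.eigenspace (r (ta (p (i, false)) (p (i, true)))) (-1) ⊓
        End.eigenspace (r (ta (p (j, false)) (p (j, true)))) 1 : Submodule ℂ H) ≤ mu r T := by
  refine maj (fun a => r (ta (p (a, false)) (p (a, true)))) (Sec r univ T)
    (fun a => by rw [← map_mul, ta_sq, map_one]) (fun a b => ?_)
    (fun a => keeps_pm r T (swap_mem (hp _ _))) (fun σ => ?_) hc hE
  · by_cases e : a = b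
    · rw [e]
    · refine Commute.map (commute_On (S := {p (a, false), p (a, true)})
        (T := {p (b, false), p (b, true)}) ?_ (ta_mem_On (by simp) (by simp))
        (ta_mem_On (by simp) (by simp))) r
      simp [Ne.symm e]
  · refine ⟨r (pm (Perm.viaEmbedding (σ.prodCongr (Equiv.refl Bool)) p)),
      r (pm (Perm.viaEmbedding (σ.prodCongr (Equiv.refl Bool)) p))⁻¹,
      by rw [← map_mul, inv_mul_cancel, map_one], keeps_pm r T fun x => ?_, fun a => ?_⟩
    · by_cases e : x ∈ Set.range p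
      · obtain ⟨y, rfl⟩ := e
        rw [Perm.viaEmbedding_apply]
        exact hp _ _
      · rw [Perm.viaEmbedding_apply_of_notMem _ _ _ e]
    · rw [← map_mul, pm_ta, map_mul, Perm.viaEmbedding_apply, Perm.viaEmbedding_apply]
      rfl

omit [Fintype ι] [DecidableEq ι] in
/-- a family of disjoint pairs starting with a given pair. -/
lemma pairs {a b : ι} (hab : a ≠ b) (W : Finset ι) (ha : a ∉ W) (hb : b ∉ W) {k : ℕ}
    (hk : 2 * k ≤ W.card) : ∃ p : Option (Fin k) × Bool ↪ ι, p (none, false) = a ∧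
      p (none, true) = b ∧ ∀ i x, p (some i, x) ∈ W := by
  obtain ⟨q, hq⟩ := Function.Embedding.exists_of_card_le_finset (α := Fin k × Bool) (s := W)
    (by simpa [mul_comm] using hk)
  have hq' : ∀ x, q x ∈ W := fun x => hq ⟨x, rfl⟩
  have qa : ∀ x, q x ≠ a := fun x e => ha (e ▸ hq' x)
  have qb : ∀ x, q x ≠ b := fun x e => hb (e ▸ hq' x)
  refine ⟨⟨fun y => y.1.elim (bif y.2 then b else a) fun i => q (i, y.2), ?_⟩, rfl, rfl,
    fun i x => hq' _⟩
  rintro ⟨_ | i, x⟩ ⟨_ | j, y⟩ e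
  · cases x <;> cases y
    · rfl
    · exact absurd e hab
    · exact absurd e hab.symm
    · rfl
  · cases x
    · exact absurd e (qa _).symm
    · exact absurd e (qb _).symm
  · cases y
    · exact absurd e (qa _)
    · exact absurd e (qb _)
  · obtain ⟨rfl, rfl⟩ := Prod.mk.inj (q.injective e)
    rfl

theorem sdef (h1 : SConv) (h2 : SR5) : SDef := by
  intro ι H _ _ _ _ _ r a b I hU hab hI
  have aS : a ∉ univ \ {a, b} := by simp
  have bS : b ∉ univ \ {a, b} := by simp
  have aI : a ∉ I := fun c => aS (hI.1 c)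
  have bI : b ∉ I := fun c => bS (hI.1 c)
  have kQ : ∀ α ∈ On ({a, b} : Set ι), Keeps (r α) (Sec r (univ \ {a, b}) I) := fun α hα =>
    keeps_Sec r I fun e he => commute_On (T := {e}) (by simpa using he) hα (ep_mem_On rfl)
  have eP : Sec r (univ \ {a, b}) I ⊓ Sec r {a, b} ∅ = Sec r univ I := by
    rw [Sec, Sec, JE_union sdiff_disjoint hI.1 (empty_subset _), sdiff_union_of_subset
      (subset_univ _), union_empty, Sec]
  have eM : Sec r (univ \ {a, b}) I ⊓ Sec r {a, b} {a, b} = Sec r univ (I ∪ {a, b}) := by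
    rw [Sec, Sec, JE_union sdiff_disjoint hI.1 Subset.rfl, sdiff_union_of_subset
      (subset_univ _), Sec]
  have uab := (hU.1 _ _ hI a b aS bS hab).1
  have uba := (hU.1 _ _ hI b a bS aS hab.symm).1
  refine ⟨by rw [df, df, ← eP, ← eM]; exact (h1 ι H r a b _ hab kQ uba).2, ?_⟩
  intro k hk c1 c2 m1 m2
  obtain ⟨p, pa, pb, pW⟩ := pairs hab (univ \ (I ∪ {a, b})) (by simp) (by simp) (k := k) (by
    have := card_union_le I {a, b}
    have := card_pair hab
    rw [card_univ_sdiff]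
    omega)
  obtain ⟨q, qa, qb, qW⟩ := pairs hab I aI bI c1
  have hp : ∀ x, p x ∉ I := by
    rintro ⟨_ | i, x⟩
    · cases x
      · rwa [pa]
      · rwa [pb]
    · exact fun c => (mem_sdiff.1 (pW i x)).2 (mem_union_left _ c)
  have hq : ∀ x, q x ∈ I ∪ {a, b} := by
    rintro ⟨_ | i, x⟩
    · cases x
      · simp [qa]
      · simp [qb]
    · exact mem_union_left _ (qW i x)
  have cK : Fintype.card (Option (Fin k)) = k + 1 := by simp
  have mP := maj_pairs r I p (fun x y => iff_of_false (hp x) (hp y)) (by omega) (by rwa [cK])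
  have mM := maj_pairs r _ q (fun x y => iff_of_true (hq x) (hq y)) (by omega) (by rwa [cK])
  rw [cK] at mP mM
  have o : Fin k := ⟨0, by omega⟩
  have A1 := mP none (some o)
  have A2 := mP (some o) none
  have B1 := mM none (some o)
  have B2 := mM (some o) none
  rw [pa, pb] at A1 A2
  rw [qa, qb] at B1 B2
  have cu : ∀ α ∈ On ({a, b} : Set ι), Commute (r α) (r (ta (p (some o, false)) (p (some o, true)))) :=
    fun α hα => Commute.map (commute_On (T := {p (some o, false), p (some o, true)})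
      (by rw [← pa, ← pb]; simp) hα (ta_mem_On (by simp) (by simp))) r
  have cw : ∀ α ∈ On ({a, b} : Set ι), Commute (r α) (r (ta (q (some o, false)) (q (some o, true)))) :=
    fun α hα => Commute.map (commute_On (T := {q (some o, false), q (some o, true)})
      (by rw [← qa, ← qb]; simp) hα (ta_mem_On (by simp) (by simp))) r
  have cuw : Commute (r (ta (q (some o, false)) (q (some o, true))))
      (r (ta (p (some o, false)) (p (some o, true)))) :=
    Commute.map (commute_On (S := (I : Set ι)) (T := (I : Set ι)ᶜ) disjoint_compl_right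
      (ta_mem_On (qW _ _) (qW _ _)) (ta_mem_On (hp _) (hp _))) r
  have ku : Keeps (r (ta (p (some o, false)) (p (some o, true)))) (Sec r univ I) :=
    keeps_pm r I (swap_mem (iff_of_false (hp _) (hp _)))
  have kw : Keeps (r (ta (q (some o, false)) (q (some o, true)))) (Sec r univ I) :=
    keeps_pm r I (swap_mem (iff_of_true (qW _ _) (qW _ _)))
  have iu : ∀ c d : ι, ∀ v, r (ta c d) (r (ta c d) v) = v := fun c d v => by
    rw [← End.mul_apply, ← map_mul, ta_sq, map_one, End.one_apply]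
  have iu' := iu (p (some o, false)) (p (some o, true))
  have iw := iu (q (some o, false)) (q (some o, true))
  generalize r (ta (p (some o, false)) (p (some o, true))) = u at *
  generalize r (ta (q (some o, false)) (q (some o, true))) = w at *
  have zS : ep a * ta a b ∈ On ({a, b} : Set ι) :=
    mul_mem (ep_mem_On (by simp)) (ta_mem_On (by simp) (by simp))
  have ze : ∀ v, r (ep a * ta a b) v = r (ta a b) (r (ep b) v) := fun v => by
    rw [← End.mul_apply, ← map_mul, ta, pm_ep, swap_apply_right]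
  have zP : ∀ v ∈ Sec r univ I, r (ep a * ta a b) v = r (ta a b) v := fun v hv => by
    rw [ze, mem_JE.1 hv b (mem_univ _), if_neg bI]
  have zM : ∀ v ∈ Sec r univ (I ∪ {a, b}), r (ep a * ta a b) v = -r (ta a b) v := fun v hv => by
    rw [ze, mem_JE.1 hv b (mem_univ _), if_pos (by simp), map_neg]
  have cu' := (cu _ zS).symm
  have cw' := (cw _ zS).symm
  have kP : ∀ c : ℂ, ∀ α ∈ On ({a, b} : Set ι), Keeps (r α)
      (Sec r (univ \ {a, b}) I ⊓ End.eigenspace u (-1) ⊓ End.eigenspace w c) := fun c α hα =>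
    ((kQ α hα).inf (keeps_eig (cu α hα) _)).inf (keeps_eig (cw α hα) _)
  have lP : ∀ c : ℂ, Sec r (univ \ {a, b}) I ⊓ End.eigenspace u (-1) ⊓ End.eigenspace w c ≤
      Sec r (univ \ {a, b}) I := fun c => inf_le_left.trans inf_le_left
  have e2 := (h1 ι H r a b _ hab (kP (-1)) (uba.mono (lP _))).2
  have e3 := h2 ι H r a b _ hab (kP 1) (uab.mono (lP _)) (hU.2 a b hab)
  have d1 := (trOn_invol (ku.inf (keeps_eig cu' (-1))) fun v _ => iu' v).2
  have d2 := (trOn_invol ((kw.inf (keeps_eig cw' (-1))).inf (keeps_eig cuw (-1)))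
    fun v _ => iw v).2
  rw [df, d1, d2]
  generalize r (ep a * ta a b) = z at *
  generalize r (ta a b) = t at *
  generalize Sec r univ I = EP at *
  generalize Sec r univ (I ∪ {a, b}) = EM at *
  generalize Sec r (univ \ {a, b}) I = Q at *
  generalize Sec r {a, b} ∅ = XP at *
  generalize Sec r {a, b} {a, b} = XM at *
  subst eP eM
  have f1 : finrank ℂ (Q ⊓ XP ⊓ End.eigenspace z (-1) ⊓ End.eigenspace u 1 : Submodule ℂ H) ≤
      finrank ℂ (Q ⊓ XP ⊓ End.eigenspace t (-1) ⊓ End.eigenspace u 1 : Submodule ℂ H) :=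
    Submodule.finrank_mono fun v ⟨⟨v1, v2⟩, v3⟩ => ⟨⟨v1, End.mem_eigenspace_iff.2 (by
      rw [← zP v v1]; exact End.mem_eigenspace_iff.1 v2)⟩, v3⟩
  have f2 : finrank ℂ (Q ⊓ XP ⊓ End.eigenspace z (-1) ⊓ End.eigenspace u (-1) ⊓
      End.eigenspace w (-1) : Submodule ℂ H) ≤
      finrank ℂ (Q ⊓ End.eigenspace u (-1) ⊓ End.eigenspace w (-1) ⊓ XP ⊓ End.eigenspace z (-1) :
        Submodule ℂ H) :=
    Submodule.finrank_mono fun v ⟨⟨⟨⟨v1, v2⟩, v3⟩, v4⟩, v5⟩ => ⟨⟨⟨⟨v1, v4⟩, v5⟩, v2⟩, v3⟩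
  have f3 : finrank ℂ (Q ⊓ End.eigenspace u (-1) ⊓ End.eigenspace w (-1) ⊓ XM ⊓
      End.eigenspace z (-1) : Submodule ℂ H) ≤
      finrank ℂ (Q ⊓ XM ⊓ End.eigenspace w (-1) ⊓ End.eigenspace t 1 : Submodule ℂ H) :=
    Submodule.finrank_mono fun v ⟨⟨⟨⟨v1, _⟩, v3⟩, v4⟩, v5⟩ => ⟨⟨⟨v1, v4⟩, v3⟩,
      End.mem_eigenspace_iff.2 (by
        have := End.mem_eigenspace_iff.1 v5
        rw [zM v ⟨v1, v4⟩] at this
        simpa using this)⟩
  have f4 : finrank ℂ (Q ⊓ XP ⊓ End.eigenspace z (-1) ⊓ End.eigenspace u (-1) ⊓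
      End.eigenspace w 1 : Submodule ℂ H) ≤
      finrank ℂ (Q ⊓ End.eigenspace u (-1) ⊓ End.eigenspace w 1 ⊓ XP : Submodule ℂ H) :=
    Submodule.finrank_mono fun v ⟨⟨⟨⟨v1, v2⟩, _⟩, v4⟩, v5⟩ => ⟨⟨⟨v1, v4⟩, v5⟩, v2⟩
  have f5 : finrank ℂ (Q ⊓ End.eigenspace u (-1) ⊓ End.eigenspace w 1 ⊓ XP ⊓
      End.eigenspace z 1 : Submodule ℂ H) ≤
      finrank ℂ (Q ⊓ XP ⊓ End.eigenspace u (-1) ⊓ End.eigenspace t 1 : Submodule ℂ H) :=
    Submodule.finrank_mono fun v ⟨⟨⟨⟨v1, v2⟩, _⟩, v4⟩, v5⟩ => ⟨⟨⟨v1, v4⟩, v2⟩,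
      End.mem_eigenspace_iff.2 (by rw [← zP v ⟨v1, v4⟩]; exact End.mem_eigenspace_iff.1 v5)⟩
  have f6 : finrank ℂ (Q ⊓ End.eigenspace u (-1) ⊓ End.eigenspace w 1 ⊓ XM ⊓
      End.eigenspace z 1 : Submodule ℂ H) ≤
      finrank ℂ (Q ⊓ XM ⊓ End.eigenspace t (-1) ⊓ End.eigenspace w 1 : Submodule ℂ H) :=
    Submodule.finrank_mono fun v ⟨⟨⟨⟨v1, _⟩, v3⟩, v4⟩, v5⟩ => ⟨⟨⟨v1, v4⟩,
      End.mem_eigenspace_iff.2 (by
        have := End.mem_eigenspace_iff.1 v5
        rw [zM v ⟨v1, v4⟩, neg_eq_iff_eq_neg] at this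
        simpa using this)⟩, v3⟩
  refine (Nat.mul_le_mul_left (k + 1) (show _ ≤
    finrank ℂ (Q ⊓ XP ⊓ End.eigenspace t (-1) ⊓ End.eigenspace u 1 : Submodule ℂ H) +
    finrank ℂ (Q ⊓ XM ⊓ End.eigenspace w (-1) ⊓ End.eigenspace t 1 : Submodule ℂ H) +
    3 * finrank ℂ (Q ⊓ XP ⊓ End.eigenspace u (-1) ⊓ End.eigenspace t 1 : Submodule ℂ H) +
    3 * finrank ℂ (Q ⊓ XM ⊓ End.eigenspace t (-1) ⊓ End.eigenspace w 1 : Submodule ℂ H)
    by omega)).trans ?_
  rw [mul_add, mul_add, mul_add, mul_left_comm, mul_left_comm _ 3]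
  omega

end Pool.Agent.MP_3ce0a0_al.H82
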